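import Mathlib

/-!
A numerical contraction lemma for the intersection matrix of a fibre (integers only).
-/

set_option autoImplicit false

namespace Pool.Agent.MP_c69980_ag.H8

open Finset

variable {ι : Type*} [DecidableEq ι]

/-- A vector `w ≥ 0` with `A w = e_c' - e_o` that vanishes at `o` has `c' = o` and vanishes at `c`
as soon as `A v = e_c - e_o` for some `v`. -/
theorem numZ (I : Finset ι) (a : ι → ι → ℤ) (v w : ι → ℤ) (o c c' : ι)
    (hs : ∀ i ∈ I, ∀ j ∈ I, a i j = a j i) (hp : ∀ i ∈ I, ∀ j ∈ I, i ≠ j → 0 ≤ a i j)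
    (ho : o ∈ I) (hc : c ∈ I) (hw0 : ∀ i ∈ I, 0 ≤ w i)
    (hv : ∀ i ∈ I, ∑ j ∈ I, a i j * v j = (if i = c then 1 else 0) - if i = o then 1 else 0)
    (hw : ∀ i ∈ I, ∑ j ∈ I, a i j * w j = (if i = c' then 1 else 0) - if i = o then 1 else 0)
    (h : w o = 0) : c' = o ∧ w c = 0 := by
  have h1 : 0 ≤ ∑ j ∈ I, a o j * w j := by
    refine Finset.sum_nonneg fun j hj => ?_
    by_cases e : o = j
    · rw [← e, h, mul_zero]
    · exact mul_nonneg (hp o ho j hj e) (hw0 j hj)
  rw [hw o ho] at h1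
  have h2 : c' = o := by
    by_contra e
    rw [if_neg (fun x => e x.symm), if_pos rfl] at h1
    omega
  refine ⟨h2, ?_⟩
  have h3 : ∑ i ∈ I, w i * ∑ j ∈ I, a i j * v j = ∑ j ∈ I, v j * ∑ i ∈ I, a j i * w i := by
    simp only [Finset.mul_sum]
    rw [Finset.sum_comm]
    refine Finset.sum_congr rfl fun j hj => Finset.sum_congr rfl fun i hi => ?_
    rw [hs i hi j hj]; ring
  rw [Finset.sum_congr rfl fun i hi => by rw [hv i hi],
    Finset.sum_congr rfl (s₁ := I) (f := fun j => v j * ∑ i ∈ I, a j i * w i)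
      (g := fun _ => 0) fun i hi => by rw [hw i hi, h2, sub_self, mul_zero]] at h3
  simp only [mul_sub, Finset.sum_sub_distrib, mul_ite, mul_one, mul_zero, Finset.sum_ite_eq',
    if_pos hc, if_pos ho, Finset.sum_const_zero, h] at h3
  omega

theorem num_j0 (J : Finset ι) (n m : ι → ℤ) (hn : ∀ j ∈ J, 0 ≤ n j) (hm : ∀ j ∈ J, 1 ≤ m j)
    (h : ∑ j ∈ J, n j * m j = 1) :
    ∃ j0 ∈ J, m j0 = 1 ∧ ∀ j ∈ J, n j = if j = j0 then 1 else 0 := by
  obtain ⟨j0, hj0, hne⟩ : ∃ j0 ∈ J, n j0 * m j0 ≠ 0 :=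
    Finset.exists_ne_zero_of_sum_ne_zero (by rw [h]; exact one_ne_zero)
  have hnn : ∀ j ∈ J.erase j0, 0 ≤ n j * m j := fun j hj =>
    mul_nonneg (hn j (Finset.mem_of_mem_erase hj))
      (by have := hm j (Finset.mem_of_mem_erase hj); omega)
  have h1 := Finset.add_sum_erase J (fun j => n j * m j) hj0
  have h2 := Finset.sum_nonneg hnn
  have h3 : n j0 ≠ 0 := left_ne_zero_of_mul hne
  have h4 := hn j0 hj0
  have h5 := hm j0 hj0
  have h6 : 1 ≤ n j0 := by omega
  have h7 : n j0 * m j0 ≤ 1 := by omega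
  have h8 : n j0 = 1 := by nlinarith
  have h9 : m j0 = 1 := by rw [h8] at h7; omega
  refine ⟨j0, hj0, h9, fun j hj => ?_⟩
  split_ifs with e
  · rw [e, h8]
  · have h10 : ∑ j ∈ J.erase j0, n j * m j = 0 := by
      simp only [h8, h9] at h1; omega
    have h11 := (Finset.sum_eq_zero_iff_of_nonneg hnn).1 h10 j (Finset.mem_erase.2 ⟨e, hj⟩)
    have := hm j hj
    exact (mul_eq_zero.1 h11).resolve_right (by omega)

/-- One contraction step for a vector `v`. -/
theorem num_step (I : Finset ι) (a : ι → ι → ℤ) (k v : ι → ℤ) (o c e j0 : ι)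
    (hs : ∀ i ∈ I, ∀ j ∈ I, a i j = a j i) (he : e ∈ I) (hee : a e e = -1) (hke : k e = -1)
    (hj : e = c ∨ e = o → j0 ∈ I.erase e ∧ ∀ j ∈ I.erase e, a e j = if j = j0 then 1 else 0)
    (hv : ∀ i ∈ I, ∑ j ∈ I, a i j * v j = (if i = c then 1 else 0) - if i = o then 1 else 0)
    (hk : ∑ j ∈ I, k j * v j + v c + v o = 0) :
    (∀ i ∈ I.erase e, ∑ j ∈ I.erase e, (a i j + a e i * a e j) * v j =
      (if i = (if c = e then j0 else c) then 1 else 0) -
        if i = (if o = e then j0 else o) then 1 else 0) ∧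
    ∑ j ∈ I.erase e, (k j - a e j) * v j + v (if c = e then j0 else c) +
      v (if o = e then j0 else o) = 0 ∧
    (e = c ∨ e = o → v j0 = v e + ((if e = c then 1 else 0) - if e = o then 1 else 0)) := by
  have h1 : ∑ j ∈ I.erase e, a e j * v j =
      v e + ((if e = c then 1 else 0) - if e = o then 1 else 0) := by
    have := Finset.add_sum_erase I (fun j => a e j * v j) he
    simp only [hee] at this
    rw [hv e he] at this
    omega
  have h2 : e = c ∨ e = o →
      v j0 = v e + ((if e = c then 1 else 0) - if e = o then 1 else 0) := fun h => by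
    rw [← h1, Finset.sum_congr rfl fun j hj' => by rw [(hj h).2 j hj']]
    simp only [ite_mul, one_mul, zero_mul, Finset.sum_ite_eq', if_pos (hj h).1]
  refine ⟨fun i hi => ?_, ?_, h2⟩
  · have hi' := Finset.mem_of_mem_erase hi
    have hie := Finset.ne_of_mem_erase hi
    have h3 := Finset.add_sum_erase I (fun j => a i j * v j) he
    simp only [hs i hi' e he] at h3
    rw [hv i hi'] at h3
    have h4 : ∑ j ∈ I.erase e, (a i j + a e i * a e j) * v j =
        ∑ j ∈ I.erase e, a i j * v j + a e i * ∑ j ∈ I.erase e, a e j * v j := by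
      rw [Finset.mul_sum, ← Finset.sum_add_distrib]
      exact Finset.sum_congr rfl fun j _ => by ring
    rw [h4, h1, mul_add, eq_sub_of_add_eq' h3]
    by_cases hc : e = c <;> by_cases ho : e = o
    · subst hc; subst ho; simp
    · have := (hj (Or.inl hc)).2 i hi
      subst hc
      simp only [this, if_neg hie, if_neg ho, if_neg (Ne.symm ho), if_pos]
      ring
    · have := (hj (Or.inr ho)).2 i hi
      subst ho
      simp only [this, if_neg hie, if_neg hc, if_neg (Ne.symm hc), if_pos]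
      ring
    · simp only [if_neg hc, if_neg ho, if_neg (Ne.symm hc), if_neg (Ne.symm ho)]
      ring
  · have h3 := Finset.add_sum_erase I (fun j => k j * v j) he
    simp only [hke] at h3
    simp only [sub_mul, Finset.sum_sub_distrib]
    rw [h1]
    by_cases hc : e = c <;> by_cases ho : e = o
    · have := h2 (Or.inl hc)
      subst hc; subst ho
      simp only [if_pos] at this ⊢
      omega
    · have := h2 (Or.inl hc)
      subst hc
      simp only [if_neg ho, if_neg (Ne.symm ho), if_pos] at this ⊢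
      omega
    · have := h2 (Or.inr ho)
      subst ho
      simp only [if_neg hc, if_neg (Ne.symm hc), if_pos] at this ⊢
      omega
    · simp only [if_neg hc, if_neg ho, if_neg (Ne.symm hc), if_neg (Ne.symm ho)]
      omega

/-- The numerical contraction lemma. -/
theorem num (I : Finset ι) (a : ι → ι → ℤ) (m k d η β v w : ι → ℤ) (M : ℤ) (o c c' : ι)
    (hs : ∀ i ∈ I, ∀ j ∈ I, a i j = a j i) (hp : ∀ i ∈ I, ∀ j ∈ I, i ≠ j → 0 ≤ a i j)
    (hm : ∀ i ∈ I, 1 ≤ m i) (ham : ∀ i ∈ I, ∑ j ∈ I, a i j * m j = 0)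
    (hk : ∀ i ∈ I, -2 ≤ k i + a i i) (hM : 1 ≤ M) (hη : ∀ i ∈ I, 0 ≤ η i)
    (hβ : ∀ i ∈ I, 0 ≤ β i) (hd : ∀ i ∈ I, ∑ j ∈ I, a i j * d j + η i - M * β i = M * k i)
    (ho : o ∈ I) (hc : c ∈ I) (hc' : c' ∈ I) (mo : m o = 1) (mc : m c = 1) (mc' : m c' = 1)
    (hv0 : ∀ i ∈ I, 0 ≤ v i) (hw0 : ∀ i ∈ I, 0 ≤ w i)
    (hv : ∀ i ∈ I, ∑ j ∈ I, a i j * v j = (if i = c then 1 else 0) - if i = o then 1 else 0)
    (hw : ∀ i ∈ I, ∑ j ∈ I, a i j * w j = (if i = c' then 1 else 0) - if i = o then 1 else 0)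
    (hkv : ∑ j ∈ I, k j * v j + v c + v o = 0) (hkw : ∑ j ∈ I, k j * w j + w c' + w o = 0)
    (hβv : ∑ j ∈ I, β j * v j = 0) (hβw : ∑ j ∈ I, β j * w j = 0) :
    v c = 0 ∧ w c' = 0 ∧ (w c = 0 ∨ d c' + M * w c ≤ d c) := by
  induction I using Finset.strongInduction generalizing a k η o c c' with
  | H I ih =>
  by_cases hb : ∀ e ∈ I, (v e ≠ 0 ∨ w e ≠ 0) → 0 ≤ k e
  · have h1 : 0 ≤ ∑ j ∈ I, k j * v j := Finset.sum_nonneg fun j hj => by
      by_cases h : v j = 0
      · rw [h, mul_zero]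
      · exact mul_nonneg (hb j hj (Or.inl h)) (hv0 j hj)
    have h2 : 0 ≤ ∑ j ∈ I, k j * w j := Finset.sum_nonneg fun j hj => by
      by_cases h : w j = 0
      · rw [h, mul_zero]
      · exact mul_nonneg (hb j hj (Or.inr h)) (hw0 j hj)
    have := hv0 c hc
    have := hv0 o ho
    have := hw0 c' hc'
    have := hw0 o ho
    exact ⟨by omega, by omega,
      Or.inl (numZ I a v w o c c' hs hp ho hc hw0 hv hw (by omega)).2⟩
  push Not at hb
  obtain ⟨e, he, hsupp, hke⟩ := hb
  have hme := hm e he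
  have hβe : β e = 0 := by
    rcases hsupp with h | h
    · exact (mul_eq_zero.1 ((Finset.sum_eq_zero_iff_of_nonneg fun j hj =>
        mul_nonneg (hβ j hj) (hv0 j hj)).1 hβv e he)).resolve_right h
    · exact (mul_eq_zero.1 ((Finset.sum_eq_zero_iff_of_nonneg fun j hj =>
        mul_nonneg (hβ j hj) (hw0 j hj)).1 hβw e he)).resolve_right h
  have sub : ∀ {j}, j ∈ I.erase e → j ∈ I := Finset.mem_of_mem_erase
  have hn : ∀ j ∈ I.erase e, 0 ≤ a e j := fun j hj =>
    hp e he j (sub hj) (Finset.ne_of_mem_erase hj).symm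
  have hnm : ∀ j ∈ I.erase e, 0 ≤ a e j * m j := fun j hj =>
    mul_nonneg (hn j hj) (by have := hm j (sub hj); omega)
  have hrow := Finset.add_sum_erase I (fun j => a e j * m j) he
  rw [ham e he] at hrow
  have hrd := Finset.add_sum_erase I (fun j => a e j * d j) he
  have hde := hd e he
  have hηe := hη e he
  have hneg : a e e ≤ -1 := by
    by_contra hh
    have h0 := Finset.sum_nonneg hnm
    have h1 : 0 ≤ a e e * m e := mul_nonneg (by omega) (by omega)
    have h2 : a e e * m e = 0 := by omega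
    have h3 : a e e = 0 := (mul_eq_zero.1 h2).resolve_right (by omega)
    have h4 : ∑ j ∈ I.erase e, a e j * d j = 0 := Finset.sum_eq_zero fun j hj => by
      have h5 := (Finset.sum_eq_zero_iff_of_nonneg hnm).1 (by omega) j hj
      have := hm j (sub hj)
      rw [(mul_eq_zero.1 h5).resolve_right (by omega), zero_mul]
    rw [← hrd, h3, h4, hβe] at hde
    nlinarith
  have hkk := hk e he
  have hee : a e e = -1 := by omega
  have hke' : k e = -1 := by omega
  rw [hee] at hrow hrd
  rw [← hrd, hβe, hke'] at hde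
  obtain ⟨j0, hj0⟩ : ∃ j0, m e = 1 → j0 ∈ I.erase e ∧ m j0 = 1 ∧
      ∀ j ∈ I.erase e, a e j = if j = j0 then 1 else 0 := by
    by_cases h : m e = 1
    · obtain ⟨j0, h1, h2⟩ := num_j0 (I.erase e) (a e) m hn (fun j hj => hm j (sub hj)) (by omega)
      exact ⟨j0, fun _ => ⟨h1, h2⟩⟩
    · exact ⟨e, fun h' => absurd h' h⟩
  have hj : ∀ x, m x = 1 → e = x ∨ e = o →
      j0 ∈ I.erase e ∧ ∀ j ∈ I.erase e, a e j = if j = j0 then 1 else 0 := fun x hx h => by
    have : m e = 1 := by rcases h with h | h <;> rw [h] <;> assumption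
    exact ⟨(hj0 this).1, (hj0 this).2.2⟩
  obtain ⟨v1, v2, v3⟩ := num_step I a k v o c e j0 hs he hee hke' (hj c mc) hv hkv
  obtain ⟨w1, w2, w3⟩ := num_step I a k w o c' e j0 hs he hee hke' (hj c' mc') hw hkw
  have rI : ∀ x ∈ I, m x = 1 → (if x = e then j0 else x) ∈ I.erase e ∧
      m (if x = e then j0 else x) = 1 := fun x hx h => by
    split_ifs with h'
    · exact ⟨(hj0 (h' ▸ h)).1, (hj0 (h' ▸ h)).2.1⟩
    · exact ⟨Finset.mem_erase.2 ⟨h', hx⟩, h⟩
  have hs' : ∀ i ∈ I.erase e, ∀ j ∈ I.erase e,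
      a i j + a e i * a e j = a j i + a e j * a e i := fun i hi j hj => by
    rw [hs i (sub hi) j (sub hj), mul_comm]
  have hp' : ∀ i ∈ I.erase e, ∀ j ∈ I.erase e, i ≠ j → 0 ≤ a i j + a e i * a e j :=
    fun i hi j hj h => add_nonneg (hp i (sub hi) j (sub hj) h) (mul_nonneg (hn i hi) (hn j hj))
  have split : ∀ (i : ι) (x : ι → ℤ), ∑ j ∈ I.erase e, (a i j + a e i * a e j) * x j =
      ∑ j ∈ I.erase e, a i j * x j + a e i * ∑ j ∈ I.erase e, a e j * x j := fun i x => by
    rw [Finset.mul_sum, ← Finset.sum_add_distrib]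
    exact Finset.sum_congr rfl fun j _ => by ring
  have hβ' : ∀ x : ι → ℤ, ∑ j ∈ I, β j * x j = 0 → ∑ j ∈ I.erase e, β j * x j = 0 :=
    fun x hx => by
      have := Finset.add_sum_erase I (fun j => β j * x j) he
      simp only [hβe] at this
      omega
  obtain ⟨i1, i2, i3⟩ := ih (I.erase e) (Finset.erase_ssubset he)
    (fun i j => a i j + a e i * a e j) (fun j => k j - a e j) (fun j => η j + a e j * η e)
    (if o = e then j0 else o) (if c = e then j0 else c) (if c' = e then j0 else c') hs' hp'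
    (fun i hi => hm i (sub hi))
    (fun i hi => by
      have h1 := Finset.add_sum_erase I (fun j => a i j * m j) he
      simp only [hs i (sub hi) e he, ham i (sub hi)] at h1
      rw [split, show ∑ j ∈ I.erase e, a e j * m j = m e by omega]
      omega)
    (fun i hi => by
      have := hk i (sub hi)
      have := Int.le_self_sq (a e i)
      nlinarith)
    (fun i hi => add_nonneg (hη i (sub hi)) (mul_nonneg (hn i hi) hηe))
    (fun i hi => hβ i (sub hi))
    (fun i hi => by
      have h1 := Finset.add_sum_erase I (fun j => a i j * d j) he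
      have h2 := hd i (sub hi)
      simp only [hs i (sub hi) e he] at h1
      rw [split, show ∑ j ∈ I.erase e, a e j * d j = d e - M - η e by omega]
      linear_combination h1 + h2)
    (rI o ho mo).1 (rI c hc mc).1 (rI c' hc' mc').1 (rI o ho mo).2 (rI c hc mc).2
    (rI c' hc' mc').2 (fun i hi => hv0 i (sub hi)) (fun i hi => hw0 i (sub hi)) v1 w1 v2 w2
    (hβ' v hβv) (hβ' w hβw)
  have Z := numZ (I.erase e) (fun i j => a i j + a e i * a e j) v w (if o = e then j0 else o)
    (if c = e then j0 else c) (if c' = e then j0 else c') hs' hp' (rI o ho mo).1 (rI c hc mc).1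
    (fun i hi => hw0 i (sub hi)) v1 w1
  have key : ∀ (u : ι → ℤ) (x : ι), 0 ≤ u e → u (if x = e then j0 else x) = 0 →
      (e = x ∨ e = o → u j0 = u e + ((if e = x then 1 else 0) - if e = o then 1 else 0)) →
      u x = 0 ∧ (x = e → o = e) := fun u x h0 h1 h2 => by
    by_cases h : x = e
    · have h3 := h2 (Or.inl h.symm)
      rw [if_pos h] at h1
      rw [if_pos h.symm, h1] at h3
      by_cases h4 : e = o
      · rw [if_pos h4] at h3
        exact ⟨by rw [h]; omega, fun _ => h4.symm⟩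
      · rw [if_neg h4] at h3
        omega
    · rw [if_neg h] at h1
      exact ⟨h1, fun h' => absurd h' h⟩
  obtain ⟨kv, kv'⟩ := key v c (hv0 e he) i1 v3
  obtain ⟨kw, kw'⟩ := key w c' (hw0 e he) i2 w3
  refine ⟨kv, kw, ?_⟩
  by_cases h : c = e <;> by_cases h' : c' = e
  · exact Or.inl (by rw [h, ← h', kw])
  · have hoe := kv' h
    have h1 := w3 (Or.inr hoe.symm)
    rw [if_neg (Ne.symm h'), if_pos hoe.symm] at h1
    have hj1 := hj c mc (Or.inl h.symm)
    have h2 : ∑ j ∈ I.erase e, a e j * d j = d j0 := by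
      rw [Finset.sum_congr rfl fun j hj' => by rw [hj1.2 j hj']]
      simp only [ite_mul, one_mul, zero_mul, Finset.sum_ite_eq', if_pos hj1.1]
    rw [if_pos h, if_neg h'] at i3
    rw [if_pos h, if_neg h', if_pos hoe] at Z
    right
    rw [h, show w e = w j0 + 1 by omega, mul_add]
    rcases i3 with h3 | h3
    · rw [(Z h3).1, h3]
      omega
    · omega
  · have hoe := kw' h'
    rw [if_pos h'] at i2
    rw [if_neg h, if_pos h', if_pos hoe] at Z
    exact Or.inl (Z i2).2
  · rwa [if_neg h, if_neg h'] at i3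

end Pool.Agent.MP_c69980_ag.H8
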